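import Pool.Agent.H66.Epi.Nil

/-!
Every member of a codistributive element of the lattice of epigroup varieties has a
completely regular square.
-/

namespace Pool.Agent.Results.MP_e62dc3_al.Codistributive

open Pool.Agent.H66.Epi

universe u

/-- If the epigroup variety `V` is a codistributive element of the lattice of all epigroup
varieties, then the square of every member of `V` is completely regular. -/
theorem result (V : EVar.{u}) (hV : Codistributive V) (S : Type u) [USg S] (hS : V.mem S) :
    SquareCompletelyRegular S :=
  square_completelyRegular V hV S hS

end Pool.Agent.Results.MP_e62dc3_al.Codistributive
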